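import Pool.Agent.Lib.MP_4a1962_an.PartC

/-!
# MP_4a1962_an: the coefficient inequality for all `n` and all sufficiently large `p`

The hypotheses on `f` and the conclusion are those of the frozen statement S04583, with `1 ≤ p` replaced by
`P ≤ p` for a constant `P` (independent of `f` and `n`).
The proof: Baernstein star inequality for the logarithm of `f` (majorisation on every circle and for every
Moebius shift), and a saddle point argument at the maximum point of `|f|` on the saddle circle of the
extremal function, with a first and second order perturbation analysis.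
-/

set_option autoImplicit false

theorem Pool.Agent.Results.MP_4a1962_an.LargeP.result :
    ∃ P : ℝ, ∀ p : ℝ, P ≤ p →
    ∀ f : ℂ → ℂ, DifferentiableOn ℂ f (Metric.ball (0 : ℂ) 1) →
      (∀ z ∈ Metric.ball (0 : ℂ) 1, f z ≠ 0) →
      (∀ R : ℝ, 0 < R →
        ∫⁻ φ in Set.Ioc (0 : ℝ) (2 * Real.pi),
          ENat.toENNReal
            (Set.encard {z : ℂ | z ∈ Metric.ball (0 : ℂ) 1 ∧
              f z = (R : ℂ) * Complex.exp ((φ : ℂ) * Complex.I)})
          ≤ ENNReal.ofReal (2 * Real.pi * p)) →
      ∀ n : ℕ, ‖iteratedDeriv n f 0‖ ≤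
        ‖f 0‖ * ‖iteratedDeriv n (fun z : ℂ => ((1 + z) / (1 - z)) ^ ((2 * p : ℝ) : ℂ)) 0‖ := by
  obtain ⟨P, _, h⟩ := MP4a1962.partC
  exact ⟨P, h⟩
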