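import Pool.Agent.Lib.MP_4a1962_an.PartB

/-!
# MP_4a1962_an: the coefficient inequality in the range `n ≤ p / 8`

The hypotheses on `f` are those of the frozen statement S04583 (for every `p > 0`), the conclusion is
the conjectured inequality for all `n` with `8 n ≤ p`.
The proof: Baernstein star inequality for the logarithm of `f`, coefficient inequalities, and a
comparison of the coefficient ratios in the recursion for `exp (p h)`.
-/

set_option autoImplicit false

theorem Pool.Agent.Results.MP_4a1962_an.SmallIndex.result :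
    ∀ p : ℝ, 0 < p →
    ∀ f : ℂ → ℂ, DifferentiableOn ℂ f (Metric.ball (0 : ℂ) 1) →
      (∀ z ∈ Metric.ball (0 : ℂ) 1, f z ≠ 0) →
      (∀ R : ℝ, 0 < R →
        ∫⁻ φ in Set.Ioc (0 : ℝ) (2 * Real.pi),
          ENat.toENNReal
            (Set.encard {z : ℂ | z ∈ Metric.ball (0 : ℂ) 1 ∧
              f z = (R : ℂ) * Complex.exp ((φ : ℂ) * Complex.I)})
          ≤ ENNReal.ofReal (2 * Real.pi * p)) →
      ∀ n : ℕ, 8 * (n : ℝ) ≤ p → ‖iteratedDeriv n f 0‖ ≤
        ‖f 0‖ * ‖iteratedDeriv n (fun z : ℂ => ((1 + z) / (1 - z)) ^ ((2 * p : ℝ) : ℂ)) 0‖ :=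
  fun _ hp _ hf hne hcirc _ hn => MP4a1962.partB hp hf hne hcirc hn
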